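import Pool.Agent.W787.KG.Defs

set_option autoImplicit false

open MeasureTheory Set Metric Filter Topology Real

noncomputable section

namespace Pool.Agent.W381.KG

open Pool.Agent.W787.KG

/-- the product in the weight -/
def PP (ξ : E) : ℝ := (1 + 1 * |ξ 0|) * (1 + 1 * |ξ 1|) * (1 + 1 * |ξ 2|)

lemma Wg_eq (p : ℕ) (ξ : E) : Wg p 1 1 ξ = 1 / (PP ξ) ^ p := rfl

lemma one_le_PP (ξ : E) : 1 ≤ PP ξ := by
  have h0 := abs_nonneg (ξ 0)
  have h1 := abs_nonneg (ξ 1)
  have h2 := abs_nonneg (ξ 2)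
  unfold PP
  have a : 1 ≤ (1 + 1 * |ξ 0|) * (1 + 1 * |ξ 1|) :=
    one_le_mul_of_one_le_of_one_le (by linarith) (by linarith)
  exact one_le_mul_of_one_le_of_one_le a (by linarith)

lemma PP_pos (ξ : E) : 0 < PP ξ := lt_of_lt_of_le one_pos (one_le_PP ξ)

lemma norm_le_PP (ξ : E) : ‖ξ‖ ≤ PP ξ := by
  have h0 := abs_nonneg (ξ 0)
  have h1 := abs_nonneg (ξ 1)
  have h2 := abs_nonneg (ξ 2)
  have h3 : ‖ξ‖ ^ 2 ≤ (|ξ 0| + |ξ 1| + |ξ 2|) ^ 2 := by
    rw [EuclideanSpace.norm_sq_eq, Fin.sum_univ_three]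
    simp only [Real.norm_eq_abs]
    nlinarith [mul_nonneg h0 h1, mul_nonneg h0 h2, mul_nonneg h1 h2]
  have h4 : ‖ξ‖ ≤ |ξ 0| + |ξ 1| + |ξ 2| :=
    (pow_le_pow_iff_left₀ (norm_nonneg _) (by positivity) two_ne_zero).1 h3
  refine h4.trans ?_
  unfold PP
  have a := mul_nonneg h0 h1
  have b := mul_nonneg h0 h2
  have c := mul_nonneg h1 h2
  have d := mul_nonneg a h2
  nlinarith

theorem we : S_WE := by
  refine ⟨?_, ?_, ?_, ?_, ?_⟩
  · intro p σ L ξ hσ hL
    have h0 := abs_nonneg (ξ 0)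
    have h1 := abs_nonneg (ξ 1)
    have h2 := abs_nonneg (ξ 2)
    refine ⟨?_, ?_⟩
    · unfold Wg
      positivity
    · unfold Wg
      have e : ∀ i : Fin 3, (-ξ) i = -(ξ i) := fun i => rfl
      rw [e, e, e, abs_neg, abs_neg, abs_neg]
  · intro L t ξ hL ht
    have h0 := abs_nonneg (ξ 0)
    have h1 := abs_nonneg (ξ 1)
    have h2 := abs_nonneg (ξ 2)
    have hs : 1 ≤ Real.sqrt (t + 1) := by
      rw [Real.one_le_sqrt]; linarith
    have hL0 : 0 < L := by linarith
    have hs0 : 0 < Real.sqrt (t + 1) := by linarith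
    refine ⟨?_, ?_⟩
    · unfold wt Wg
      positivity
    · unfold wt
      refine mul_le_mul_of_nonneg_left ?_ hL0.le
      unfold Wg
      refine one_div_le_one_div_of_le (by positivity) ?_
      refine pow_le_pow_left₀ (by positivity) ?_ 6
      have k0 : 1 * |ξ 0| ≤ Real.sqrt (t + 1) * |ξ 0| := mul_le_mul_of_nonneg_right hs h0
      have k1 : 1 * |ξ 1| ≤ Real.sqrt (t + 1) * |ξ 1| := mul_le_mul_of_nonneg_right hs h1
      have k2 : 1 * |ξ 2| ≤ L * |ξ 2| := mul_le_mul_of_nonneg_right hL h2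
      refine mul_le_mul (mul_le_mul (by linarith) (by linarith) (by positivity) (by positivity))
        (by linarith) (by positivity) (by positivity)
  · intro p k ξ hk
    rw [Wg_eq, Wg_eq]
    have hP := PP_pos ξ
    have e : 1 / (PP ξ) ^ (p - k) = (PP ξ) ^ k * (1 / (PP ξ) ^ p) := by
      have : (PP ξ) ^ p = (PP ξ) ^ k * (PP ξ) ^ (p - k) := by
        rw [← pow_add]; congr 1; omega
      rw [this]
      field_simp
    rw [e]
    exact mul_le_mul_of_nonneg_right (pow_le_pow_left₀ (norm_nonneg _) (norm_le_PP ξ) k)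
      (by positivity)
  · intro p k ξ hk
    rw [Wg_eq, Wg_eq]
    refine one_div_le_one_div_of_le (pow_pos (PP_pos ξ) k) ?_
    exact pow_le_pow_right₀ (one_le_PP ξ) hk
  · intro p
    have hc : Continuous PP := by
      unfold PP
      fun_prop
    have : Wg p 1 1 = fun ξ => 1 / (PP ξ) ^ p := funext fun ξ => Wg_eq p ξ
    rw [this]
    exact continuous_const.div (hc.pow p) fun ξ => (pow_pos (PP_pos ξ) p).ne'

lemma integrable_abs_of {f : ℝ → ℝ} (hf : IntegrableOn f (Ioi 0)) : Integrable (fun x => f |x|) := by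
  have h1 : IntegrableOn (fun x => f |x|) (Ioi 0) :=
    hf.congr_fun (fun x hx => by
      have : |x| = x := abs_of_pos hx
      simp only [this]) measurableSet_Ioi
  have int_Iic : IntegrableOn (fun x ↦ f |x|) (Iic 0) := by
    rw [← Measure.map_neg_eq_self (volume : Measure ℝ)]
    let m : MeasurableEmbedding fun x : ℝ => -x := (Homeomorph.neg ℝ).measurableEmbedding
    rw [m.integrableOn_map_iff]
    simp_rw [Function.comp_def, abs_neg, neg_preimage, neg_Iic, neg_zero]
    exact Iff.mpr integrableOn_Ici_iff_integrableOn_Ioi h1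
  have h2 := int_Iic.union h1
  rw [Iic_union_Ioi] at h2
  exact integrableOn_univ.1 h2

lemma int_F (p : ℕ) (hp : 2 ≤ p) : Integrable (fun z : ℝ => 1 / (1 + 1 * |z|) ^ p) := by
  have h := integrable_one_add_norm (E := ℝ) (μ := volume) (r := (p : ℝ)) (by
    have : (2 : ℝ) ≤ p := by exact_mod_cast hp
    simp only [Module.finrank_self, Nat.cast_one]
    linarith)
  refine h.congr (Eventually.of_forall fun z => ?_)
  simp only
  rw [Real.norm_eq_abs, Real.rpow_neg (by positivity), Real.rpow_natCast, one_mul, one_div]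

lemma int_g (p : ℕ) (hp : 2 ≤ p) :
    IntegrableOn (fun z : ℝ => 1 / Real.sqrt z * (1 / (1 + 1 * z) ^ p)) (Ioi 0) := by
  have hm : Measurable (fun z : ℝ => 1 / Real.sqrt z * (1 / (1 + 1 * z) ^ p)) := by fun_prop
  have e : Ioi (0 : ℝ) = Ioc 0 1 ∪ Ioi 1 := (Ioc_union_Ioi_eq_Ioi zero_le_one).symm
  rw [e]
  refine IntegrableOn.union ?_ ?_
  · have h1 : IntegrableOn (fun z : ℝ => z ^ (-(1 / 2) : ℝ)) (Ioc 0 1) := by
      have := intervalIntegral.intervalIntegrable_rpow' (a := 0) (b := 1)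
        (show (-1 : ℝ) < -(1 / 2) by norm_num)
      rwa [intervalIntegrable_iff_integrableOn_Ioc_of_le zero_le_one] at this
    refine Integrable.mono' h1 hm.aestronglyMeasurable ?_
    filter_upwards [ae_restrict_mem measurableSet_Ioc] with z hz
    have hz0 : 0 < z := hz.1
    have hs : 0 < Real.sqrt z := Real.sqrt_pos.2 hz0
    rw [Real.norm_of_nonneg (by positivity), Real.rpow_neg hz0.le, ← Real.sqrt_eq_rpow]
    have h2 : 1 / (1 + 1 * z) ^ p ≤ 1 := by
      rw [div_le_one (by positivity)]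
      exact one_le_pow₀ (by linarith)
    calc 1 / Real.sqrt z * (1 / (1 + 1 * z) ^ p) ≤ 1 / Real.sqrt z * 1 :=
          mul_le_mul_of_nonneg_left h2 (by positivity)
      _ = (Real.sqrt z)⁻¹ := by rw [mul_one, one_div]
  · have h1 : IntegrableOn (fun z : ℝ => z ^ (-2 : ℝ)) (Ioi 1) :=
      integrableOn_Ioi_rpow_of_lt (by norm_num) one_pos
    refine Integrable.mono' h1 hm.aestronglyMeasurable ?_
    filter_upwards [ae_restrict_mem measurableSet_Ioi] with z hz
    have hz1 : 1 < z := hz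
    have hz0 : 0 < z := by linarith
    have hs1 : 1 ≤ Real.sqrt z := by rw [Real.one_le_sqrt]; exact hz1.le
    have hs : 0 < Real.sqrt z := by linarith
    rw [Real.norm_of_nonneg (by positivity)]
    have e2 : z ^ (-2 : ℝ) = 1 / z ^ 2 := by
      rw [Real.rpow_neg hz0.le, one_div]
      norm_num
    rw [e2]
    have h2 : 1 / Real.sqrt z ≤ 1 := by rw [div_le_one hs]; exact hs1
    have h3 : 1 / (1 + 1 * z) ^ p ≤ 1 / z ^ 2 := by
      refine one_div_le_one_div_of_le (by positivity) ?_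
      calc z ^ 2 ≤ (1 + 1 * z) ^ 2 := pow_le_pow_left₀ hz0.le (by linarith) 2
        _ ≤ (1 + 1 * z) ^ p := pow_le_pow_right₀ (by linarith) hp
    calc 1 / Real.sqrt z * (1 / (1 + 1 * z) ^ p) ≤ 1 * (1 / z ^ 2) :=
          mul_le_mul h2 h3 (by positivity) zero_le_one
      _ = 1 / z ^ 2 := one_mul _

lemma ae_ne (i : Fin 3) : ∀ᵐ η : E, η i ≠ 0 := by
  have h1 : ∀ᵐ z : ℝ, z ≠ 0 := by
    rw [ae_iff]
    simp
  have h2 := (EuclideanSpace.volume_preserving_symm_measurableEquiv_toLp (Fin 3))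
  have h3 : Measure.QuasiMeasurePreserving (Function.eval i) (volume : Measure (Fin 3 → ℝ))
      (volume : Measure ℝ) := Measure.quasiMeasurePreserving_eval (fun _ : Fin 3 => volume) i
  exact (h3.comp h2.quasiMeasurePreserving).ae h1

theorem wi (h3 : S_PR) : S_WI := by
  intro p hp
  have hF := int_F p hp
  have hG : Integrable (fun z : ℝ => 1 / Real.sqrt |z| * (1 / (1 + 1 * |z|) ^ p)) :=
    integrable_abs_of (int_g p hp)
  refine ⟨?_, ?_⟩
  · refine (h3.1 _ _ _ hF hF hF).1.congr (Eventually.of_forall fun ξ => ?_)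
    simp only
    unfold Wg
    rw [mul_pow, mul_pow]
    have h0 := abs_nonneg (ξ 0)
    have h1 := abs_nonneg (ξ 1)
    have h2 := abs_nonneg (ξ 2)
    field_simp
  · have hI := (h3.1 _ _ _ hG hG hF).1
    refine hI.mono' ?_ ?_
    · have hc : Continuous (Wg p 1 1) := we.2.2.2.2 p
      exact ((measurable_norm.const_div 1).mul hc.measurable).aestronglyMeasurable
    · filter_upwards [ae_ne 0, ae_ne 1] with η h0 h1
      have a0 : 0 < |η 0| := abs_pos.2 h0
      have a1 : 0 < |η 1| := abs_pos.2 h1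
      have s0 : 0 < Real.sqrt |η 0| := Real.sqrt_pos.2 a0
      have s1 : 0 < Real.sqrt |η 1| := Real.sqrt_pos.2 a1
      have hn0 : |η 0| ≤ ‖η‖ := by
        rw [← Real.norm_eq_abs]; exact PiLp.norm_apply_le η 0
      have hn1 : |η 1| ≤ ‖η‖ := by
        rw [← Real.norm_eq_abs]; exact PiLp.norm_apply_le η 1
      have hη : 0 < ‖η‖ := lt_of_lt_of_le a0 hn0
      have hW : 0 < Wg p 1 1 η := (we.1 p 1 1 η one_pos one_pos).1
      rw [Real.norm_of_nonneg (by positivity)]
      have hle : Real.sqrt |η 0| * Real.sqrt |η 1| ≤ ‖η‖ := by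
        rw [← Real.sqrt_mul a0.le]
        refine Real.sqrt_le_iff.2 ⟨hη.le, ?_⟩
        rw [sq]
        exact mul_le_mul hn0 hn1 a1.le hη.le
      have h4 : 1 / ‖η‖ ≤ 1 / (Real.sqrt |η 0| * Real.sqrt |η 1|) :=
        one_div_le_one_div_of_le (mul_pos s0 s1) hle
      calc 1 / ‖η‖ * Wg p 1 1 η ≤ 1 / (Real.sqrt |η 0| * Real.sqrt |η 1|) * Wg p 1 1 η :=
            mul_le_mul_of_nonneg_right h4 hW.le
        _ = _ := by
            unfold Wg
            rw [mul_pow, mul_pow]
            field_simp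

end Pool.Agent.W381.KG
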